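import Mathlib

/-!
# Protocols of two parties whose private memory consists of cells
-/

set_option autoImplicit false

namespace Pool.Agent.T9h85.OT

open Finset

/-- The treewidth of `G` is at most `w`: `G` is contained in a graph `H` with an ordering `r` of the
vertices (a perfect elimination ordering) such that for every vertex the later neighbours form a
clique of at most `w` elements. -/
def TreewidthLE {V : Type} (G : SimpleGraph V) (w : ℕ) : Prop :=
  ∃ (H : SimpleGraph V) (r : V → ℕ), Function.Injective r ∧ G ≤ H ∧
    ∀ v, H.IsClique {u | H.Adj v u ∧ r v < r u} ∧ {u | H.Adj v u ∧ r v < r u}.encard ≤ w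

/-- A party. Its private memory consists of cells with `d` states; the cell `0` is written at the
beginning (with the distribution `init`) and the cell `j + 1` in the round `j`. The party knows the
whole transcript. After the transcript `τ` of the first `j` rounds, in which the cells `s 0, ..., s j`
have been written, it reads the cells in `reads j τ`; `step j τ s m q` is the probability that it sends
the bit `m` and writes `q` in the cell `j + 1` (if `turn j = me`), or that it writes `q` if the
other party sends the bit `m` (if `turn j ≠ me`). -/
structure Party (turn : ℕ → Bool) (me : Bool) (d : ℕ) where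
  init : Fin d → ℝ
  reads : ∀ j : ℕ, (Fin j → Bool) → Set (Fin (j + 1))
  step : ∀ j : ℕ, (Fin j → Bool) → (Fin (j + 1) → Fin d) → Bool → Fin d → ℝ
  step_reads : ∀ j τ s s', (∀ i ∈ reads j τ, s i = s' i) → step j τ s = step j τ s'
  init_nonneg : ∀ q, 0 ≤ init q
  init_sum : ∑ q, init q = 1
  step_nonneg : ∀ j τ s m q, 0 ≤ step j τ s m q
  step_send : ∀ j τ s, turn j = me → ∑ m, ∑ q, step j τ s m q = 1
  step_receive : ∀ j τ s m, turn j ≠ me → ∑ q, step j τ s m q = 1

section party

variable {turn : ℕ → Bool} {me : Bool} {d : ℕ}

/-- the cells which are involved in the round `j`: those which are read and the new one -/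
def Party.touched (A : Party turn me d) {n : ℕ} (τ : Fin n → Bool) (j : Fin n) :
    Set (Fin (n + 1)) :=
  {v | v = j.succ ∨ ∃ i ∈ A.reads j (fun l => τ (Fin.castLE j.2.le l)), (v : ℕ) = i}

/-- The graph of the memory for the transcript `τ`: the vertices are the cells, two of them are
adjacent if some round involves both. -/
def Party.graph (A : Party turn me d) {n : ℕ} (τ : Fin n → Bool) : SimpleGraph (Fin (n + 1)) where
  Adj u v := u ≠ v ∧ ∃ j, u ∈ A.touched τ j ∧ v ∈ A.touched τ j
  symm := ⟨fun _ _ h => ⟨h.1.symm, h.2.imp fun _ h' => ⟨h'.2, h'.1⟩⟩⟩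
  loopless := ⟨fun _ h => h.1 rfl⟩

/-- for every transcript of `n` rounds the graph of the memory has treewidth at most `w` -/
def Party.WidthLE (A : Party turn me d) (n w : ℕ) : Prop :=
  ∀ τ : Fin n → Bool, TreewidthLE (A.graph τ) w

/-- in each of the first `n` rounds at most one cell is read -/
def Party.OneRead (A : Party turn me d) (n : ℕ) : Prop :=
  ∀ j < n, ∀ τ : Fin j → Bool, (A.reads j τ).Subsingleton

/-- the weight of a transcript and the contents of the cells: the product of the probabilities of
the steps -/
def Party.wt (A : Party turn me d) : ∀ n : ℕ, (Fin n → Bool) → (Fin (n + 1) → Fin d) → ℝ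
  | 0, _, s => A.init (s 0)
  | n + 1, τ, s => A.wt n (Fin.init τ) (Fin.init s) *
      A.step n (Fin.init τ) (Fin.init s) (τ (Fin.last n)) (s (Fin.last (n + 1)))

/-- the weight of a transcript -/
noncomputable def Party.tot (A : Party turn me d) (n : ℕ) (τ : Fin n → Bool) : ℝ :=
  ∑ s, A.wt n τ s

end party

/-- A protocol of `n` rounds; the sender has an input in `Y` and cells with `a` states, the receiver
has an input in `X`, cells with `b` states and an output in `Z`, which depends on its input, the
transcript and all its cells. -/
structure Protocol (X Y Z : Type) (a b : ℕ) where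
  n : ℕ
  turn : ℕ → Bool
  sender : Y → Party turn true a
  receiver : X → Party turn false b
  out : X → (Fin n → Bool) → (Fin (n + 1) → Fin b) → Z

variable {X Y Z : Type} {a b : ℕ}

/-- the probability that the transcript of the first `n` rounds is `τ`, the cells of the sender are
`p` and the cells of the receiver are `q` -/
def Protocol.law (P : Protocol X Y Z a b) (x : X) (y : Y) :
    ∀ n : ℕ, (Fin n → Bool) → (Fin (n + 1) → Fin a) → (Fin (n + 1) → Fin b) → ℝ
  | 0, _, p, q => (P.sender y).init (p 0) * (P.receiver x).init (q 0)
  | n + 1, τ, p, q => P.law x y n (Fin.init τ) (Fin.init p) (Fin.init q) *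
      ((P.sender y).step n (Fin.init τ) (Fin.init p) (τ (Fin.last n)) (p (Fin.last (n + 1))) *
        (P.receiver x).step n (Fin.init τ) (Fin.init q) (τ (Fin.last n)) (q (Fin.last (n + 1))))

/-- the expectation of a function of the transcript -/
noncomputable def Protocol.expect (P : Protocol X Y Z a b) (x : X) (y : Y)
    (g : (Fin P.n → Bool) → ℝ) : ℝ :=
  ∑ τ, ∑ p, ∑ q, P.law x y P.n τ p q * g τ

open Classical in
/-- the probability that the output of the receiver is not `f x y` -/
noncomputable def Protocol.error (P : Protocol X Y Z a b) (f : X → Y → Z) (x : X) (y : Y) : ℝ :=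
  ∑ τ, ∑ p, ∑ q, P.law x y P.n τ p q * (if P.out x τ q = f x y then 0 else 1)

/-- the output is correct with probability at least `1 - δ` -/
def Protocol.Correct (P : Protocol X Y Z a b) (f : X → Y → Z) (δ : ℝ) : Prop :=
  ∀ x y, P.error f x y ≤ δ

/-- the tests do not distinguish the inputs of the receiver -/
def Protocol.ReceiverPrivate (P : Protocol X Y Z a b) (T : ((Fin P.n → Bool) → ℝ) → Prop)
    (ε : ℝ) : Prop :=
  ∀ x x' y g, T g → |P.expect x y g - P.expect x' y g| ≤ ε

/-- the tests do not distinguish inputs of the sender with the same output -/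
def Protocol.SenderPrivate (P : Protocol X Y Z a b) (f : X → Y → Z)
    (T : ((Fin P.n → Bool) → ℝ) → Prop) (ε : ℝ) : Prop :=
  ∀ x y y' g, f x y = f x y' → T g → |P.expect x y g - P.expect x y' g| ≤ ε

open Classical in
/-- The tests with `K`, for the protocol `P`. (i) The treewidth of the memory of the sender is at most `w`
for its inputs `y` and `y'` and every transcript, and `a ^ (w + 1) ≤ K`: the test computes the
probabilities that the sender agrees with the transcript, for `y` and for `y'`, and compares the first
one with twice the second one. (ii) The treewidth of the memory of the receiver is at most `w` for its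
input `x` and every transcript, and `b ^ (w + 1) ≤ K`: the test draws random contents of the cells of the
receiver with the input `x`, given the transcript, and accepts if the output is `z`. (Both by dynamic
programming over a tree decomposition, with about `K` operations for a cell.) -/
def Protocol.IsTest (P : Protocol X Y Z a b) (K : ℕ) (g : (Fin P.n → Bool) → ℝ) : Prop :=
  (∃ (y y' : Y) (w : ℕ), (P.sender y).WidthLE P.n w ∧ (P.sender y').WidthLE P.n w ∧
    a ^ (w + 1) ≤ K ∧
    ∀ τ, g τ = if (P.sender y).tot P.n τ ≤ 2 * (P.sender y').tot P.n τ then 1 else 0) ∨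
  (∃ (x : X) (z : Z) (w : ℕ), (P.receiver x).WidthLE P.n w ∧ b ^ (w + 1) ≤ K ∧
    ∀ τ, g τ = (∑ s, (P.receiver x).wt P.n τ s * if P.out x τ s = z then 1 else 0) /
      (P.receiver x).tot P.n τ)

end Pool.Agent.T9h85.OT
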