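import Pool.Agent.T9h85.OT.Defs

/-!
# Both parties need large snapshots
-/

set_option autoImplicit false
set_option linter.unusedSectionVars false

namespace Pool.Agent.T9h85.OT

open Finset

variable {X Y Z : Type} {a b : ℕ}

section party

variable {turn : ℕ → Bool} {me : Bool} {d : ℕ} (A : Party turn me d)

theorem Party.wt_nonneg (n : ℕ) (τ : Fin n → Bool) (s : Fin (n + 1) → Fin d) : 0 ≤ A.wt n τ s := by
  induction n with
  | zero => exact A.init_nonneg _
  | succ n ih => exact mul_nonneg (ih _ _) (A.step_nonneg _ _ _ _ _)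

theorem Party.tot_nonneg (n : ℕ) (τ : Fin n → Bool) : 0 ≤ A.tot n τ :=
  sum_nonneg fun s _ => A.wt_nonneg n τ s

/-- sums over functions on `Fin (n + 1)` -/
theorem sum_snoc {B : Type} [Fintype B] {n : ℕ} (F : (Fin (n + 1) → B) → ℝ) :
    ∑ τ, F τ = ∑ τ : Fin n → B, ∑ m : B, F (Fin.snoc (α := fun _ => B) τ m) := by
  rw [sum_comm, ← Fintype.sum_prod_type',
    ← (Fin.snocEquiv (fun _ : Fin (n + 1) => B)).sum_comp]
  rfl

theorem Party.tot_snoc (n : ℕ) (τ : Fin n → Bool) (m : Bool) :
    A.tot (n + 1) (Fin.snoc (α := fun _ => Bool) τ m) =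
      ∑ s, A.wt n τ s * ∑ q, A.step n τ s m q := by
  unfold Party.tot
  rw [sum_snoc]
  refine sum_congr rfl fun s _ => ?_
  rw [mul_sum]
  refine sum_congr rfl fun q' _ => ?_
  simp only [Party.wt, Fin.init_snoc, Fin.snoc_last]

theorem Party.tot_zero (τ : Fin 0 → Bool) : A.tot 0 τ = 1 := by
  unfold Party.tot
  rw [← A.init_sum]
  rw [← (Equiv.funUnique (Fin 1) (Fin d)).symm.sum_comp]
  exact sum_congr rfl fun q _ => rfl

end party

/-- the sum over all transcripts of the product of the weights is one -/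
theorem total {turn : ℕ → Bool} (S : Party turn true a) (R : Party turn false b) (n : ℕ) :
    ∑ τ : Fin n → Bool, S.tot n τ * R.tot n τ = 1 := by
  induction n with
  | zero => simp [Party.tot_zero]
  | succ n ih =>
    rw [sum_snoc]
    rw [← ih]
    refine sum_congr rfl fun τ _ => ?_
    simp only [Party.tot_snoc]
    rcases h : turn n with _ | _
    · have h1 : ∀ m s, ∑ p', S.step n τ s m p' = 1 := fun m s =>
        S.step_receive _ _ _ _ (by rw [h]; simp)
      have h2 : ∀ s, ∑ m, ∑ q', R.step n τ s m q' = 1 := fun s =>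
        R.step_send _ _ _ h
      simp only [h1, mul_one]
      rw [← mul_sum, sum_comm]
      congr 1
      refine sum_congr rfl fun s _ => ?_
      rw [← mul_sum, h2, mul_one]
    · have h1 : ∀ m s, ∑ p', R.step n τ s m p' = 1 := fun m s =>
        R.step_receive _ _ _ _ (by rw [h]; simp)
      have h2 : ∀ s, ∑ m, ∑ q', S.step n τ s m q' = 1 := fun s =>
        S.step_send _ _ _ h
      simp only [h1, mul_one]
      rw [← sum_mul, sum_comm]
      congr 1
      refine sum_congr rfl fun s _ => ?_
      rw [← mul_sum, h2, mul_one]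

theorem Protocol.law_eq (P : Protocol X Y Z a b) (x : X) (y : Y) (n : ℕ) (τ : Fin n → Bool)
    (p : Fin (n + 1) → Fin a) (q : Fin (n + 1) → Fin b) :
    P.law x y n τ p q = (P.sender y).wt n τ p * (P.receiver x).wt n τ q := by
  induction n with
  | zero => rfl
  | succ n ih =>
    simp only [Protocol.law, Party.wt]
    rw [ih]
    ring

theorem Protocol.expect_eq (P : Protocol X Y Z a b) (x : X) (y : Y)
    (g : (Fin P.n → Bool) → ℝ) :
    P.expect x y g = ∑ τ, (P.sender y).tot P.n τ * (P.receiver x).tot P.n τ * g τ := by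
  refine sum_congr rfl fun τ _ => ?_
  rw [Party.tot, Party.tot, sum_mul_sum, sum_mul]
  refine sum_congr rfl fun p _ => ?_
  rw [sum_mul]
  refine sum_congr rfl fun q _ => ?_
  rw [P.law_eq]

open Classical in
/-- the weight of the runs of the receiver with output `z` -/
noncomputable def Protocol.outWt (P : Protocol X Y Z a b) (x : X) (z : Z)
    (τ : Fin P.n → Bool) : ℝ := ∑ q, (P.receiver x).wt P.n τ q * (if P.out x τ q = z then 1 else 0)

section facts
variable (P : Protocol X Y Z a b) (f : X → Y → Z)

theorem expect_one (x : X) (y : Y) : P.expect x y (fun _ => 1) = 1 := by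
  rw [P.expect_eq]
  simp only [mul_one]
  exact total _ _ _

theorem expect_sub (x : X) (y : Y) (g h : (Fin P.n → Bool) → ℝ) :
    P.expect x y (fun τ => g τ - h τ) = P.expect x y g - P.expect x y h := by
  rw [P.expect_eq, P.expect_eq, P.expect_eq, ← sum_sub_distrib]
  exact sum_congr rfl fun τ _ => by ring

theorem outWt_nonneg (x : X) (z : Z) (τ : Fin P.n → Bool) : 0 ≤ P.outWt x z τ :=
  sum_nonneg fun q _ => mul_nonneg (Party.wt_nonneg _ _ _ _) (by split <;> norm_num)

theorem outWt_le (x : X) (z : Z) (τ : Fin P.n → Bool) : P.outWt x z τ ≤ (P.receiver x).tot P.n τ :=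
  sum_le_sum fun q _ => by
    have := Party.wt_nonneg (P.receiver x) P.n τ q
    split <;> nlinarith

theorem error_eq (x : X) (y : Y) :
    P.error f x y = ∑ τ : Fin P.n → Bool, (P.sender y).tot P.n τ *
      ((P.receiver x).tot P.n τ - P.outWt x (f x y) τ) := by
  classical
  refine sum_congr rfl fun τ _ => ?_
  rw [Party.tot, Party.tot, Protocol.outWt, ← sum_sub_distrib, sum_mul_sum]
  refine sum_congr rfl fun p _ => sum_congr rfl fun q _ => ?_
  rw [P.law_eq]
  by_cases h : P.out x τ q = f x y <;> simp [h]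

/-- the probability of the output `z` -/
theorem sum_out_ge (x : X) (y : Y) {δ : ℝ} (hc : P.Correct f δ) :
    1 - δ ≤ ∑ τ : Fin P.n → Bool, (P.sender y).tot P.n τ * P.outWt x (f x y) τ := by
  have h1 := hc x y
  rw [error_eq] at h1
  have h2 := expect_one P x y
  rw [P.expect_eq] at h2
  simp only [mul_one] at h2
  have h3 : ∑ τ : Fin P.n → Bool, (P.sender y).tot P.n τ *
      ((P.receiver x).tot P.n τ - P.outWt x (f x y) τ) =
      ∑ τ : Fin P.n → Bool, (P.sender y).tot P.n τ * (P.receiver x).tot P.n τ -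
      ∑ τ : Fin P.n → Bool, (P.sender y).tot P.n τ * P.outWt x (f x y) τ := by
    rw [← sum_sub_distrib]
    exact sum_congr rfl fun τ _ => by ring
  linarith

theorem sum_out_le (x : X) (y : Y) {δ : ℝ} (hc : P.Correct f δ) {z : Z} (hz : z ≠ f x y) :
    ∑ τ : Fin P.n → Bool, (P.sender y).tot P.n τ * P.outWt x z τ ≤ δ := by
  classical
  refine le_trans ?_ (hc x y)
  rw [error_eq]
  refine sum_le_sum fun τ _ => mul_le_mul_of_nonneg_left ?_ (Party.tot_nonneg _ _ _)
  rw [Party.tot, Protocol.outWt, Protocol.outWt, ← sum_sub_distrib]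
  refine sum_le_sum fun q _ => ?_
  have h0 := Party.wt_nonneg (P.receiver x) P.n τ q
  by_cases h : P.out x τ q = z
  · rw [if_pos h, if_neg (by rw [h]; exact hz)]; linarith
  · rw [if_neg h]; split <;> linarith

end facts

/-! ### The receiver -/

variable {f : X → Y → Z}

/-- the probability of the output `z` for the input `x`, given the transcript -/
noncomputable def post (P : Protocol X Y Z a b) (x : X) (z : Z) (τ : Fin P.n → Bool) : ℝ :=
  P.outWt x z τ / (P.receiver x).tot P.n τ

theorem receiver_bound (P : Protocol X Y Z a b)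
    (T : ((Fin P.n → Bool) → ℝ) → Prop) {x x' : X} {y y' : Y} (h1 : f x y = f x y')
    (h2 : f x' y ≠ f x' y') (hT : T (post P x' (f x' y'))) {δ ε ε' : ℝ} (hc : P.Correct f δ)
    (hr : P.ReceiverPrivate T ε) (hs : P.SenderPrivate f T ε') : 1 ≤ 2 * δ + 2 * ε + ε' := by
  set g := post P x' (f x' y') with hg
  have key : ∀ y, P.expect x' y g = ∑ τ : Fin P.n → Bool, (P.sender y).tot P.n τ *
      P.outWt x' (f x' y') τ := by
    intro y
    rw [P.expect_eq]
    refine sum_congr rfl fun τ _ => ?_
    rw [hg, post, mul_assoc]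
    congr 1
    rcases eq_or_ne ((P.receiver x').tot P.n τ) 0 with h | h
    · have := outWt_le P x' (f x' y') τ
      have := outWt_nonneg P x' (f x' y') τ
      rw [h]; simp; linarith
    · field_simp
  have e1 := sum_out_ge P f x' y' hc
  have e2 := sum_out_le P f x' y hc h2.symm
  rw [← key] at e1 e2
  have a1 := abs_le.1 (hr x x' y' g hT)
  have a2 := abs_le.1 (hr x x' y g hT)
  have a3 := abs_le.1 (hs x y y' g h1 hT)
  linarith [a1.1, a1.2, a2.1, a2.2, a3.1, a3.2]

/-! ### The sender -/

open Classical in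
/-- the transcript is at least half as likely for the input `y'` as for the input `y` -/
noncomputable def ratio (P : Protocol X Y Z a b) (y y' : Y) (τ : Fin P.n → Bool) : ℝ :=
  if (P.sender y).tot P.n τ ≤ 2 * (P.sender y').tot P.n τ then 1 else 0

theorem sender_bound (P : Protocol X Y Z a b)
    (T : ((Fin P.n → Bool) → ℝ) → Prop) {x x' : X} {y y' : Y} (h1 : f x y = f x y')
    (h2 : f x' y ≠ f x' y') (hT : T (ratio P y y')) {δ ε ε' : ℝ} (hc : P.Correct f δ)
    (hr : P.ReceiverPrivate T ε) (hs : P.SenderPrivate f T ε') :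
    1 ≤ 6 * δ + 2 * ε + 2 * ε' := by
  set g := ratio P y y' with hg
  -- at `y'`, `x` the test accepts with probability at least one half
  have e1 : 1 / 2 ≤ P.expect x y' g := by
    have h3 : P.expect x y' (fun τ => 1 - g τ) ≤ 1 / 2 := by
      rw [P.expect_eq]
      have h4 := expect_one P x y
      rw [P.expect_eq] at h4
      calc ∑ τ : Fin P.n → Bool, (P.sender y').tot P.n τ *
            (P.receiver x).tot P.n τ * (1 - g τ)
          ≤ ∑ τ : Fin P.n → Bool, (1 / 2) * ((P.sender y).tot P.n τ *
            (P.receiver x).tot P.n τ * 1) := by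
            refine sum_le_sum fun τ _ => ?_
            have hw := Party.tot_nonneg (P.receiver x) P.n τ
            have hv := Party.tot_nonneg (P.sender y) P.n τ
            rw [hg, ratio]
            split
            · nlinarith [mul_nonneg hv hw]
            · rename_i h
              push Not at h
              nlinarith [mul_le_mul_of_nonneg_right h.le hw]
        _ = 1 / 2 := by rw [← mul_sum, h4, mul_one]
    have h5 := expect_sub P x y' (fun _ => 1) g
    rw [expect_one] at h5
    linarith
  -- at `y`, `x'` the test accepts with small probability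
  have e2 : P.expect x' y g ≤ 3 * δ := by
    rw [P.expect_eq]
    have h3 := sum_out_le P f x' y' hc h2
    have h4 := hc x' y
    rw [error_eq] at h4
    calc ∑ τ : Fin P.n → Bool, (P.sender y).tot P.n τ *
          (P.receiver x').tot P.n τ * g τ
        ≤ ∑ τ : Fin P.n → Bool, (2 * ((P.sender y').tot P.n τ *
            P.outWt x' (f x' y) τ) + (P.sender y).tot P.n τ *
            ((P.receiver x').tot P.n τ - P.outWt x' (f x' y) τ)) := by
          refine sum_le_sum fun τ _ => ?_
          have hw := Party.tot_nonneg (P.receiver x') P.n τ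
          have hv := Party.tot_nonneg (P.sender y) P.n τ
          have hv' := Party.tot_nonneg (P.sender y') P.n τ
          have ho := outWt_nonneg P x' (f x' y) τ
          have hl := outWt_le P x' (f x' y) τ
          rw [hg, ratio]
          split
          · rename_i h
            nlinarith [mul_le_mul_of_nonneg_right h ho]
          · nlinarith [mul_nonneg hv (sub_nonneg.2 hl), mul_nonneg hv' ho]
      _ = 2 * ∑ τ : Fin P.n → Bool, (P.sender y').tot P.n τ *
            P.outWt x' (f x' y) τ +
          ∑ τ : Fin P.n → Bool, (P.sender y).tot P.n τ *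
            ((P.receiver x').tot P.n τ - P.outWt x' (f x' y) τ) := by
          rw [sum_add_distrib, ← mul_sum]
      _ ≤ 2 * δ + δ := by linarith
      _ = 3 * δ := by ring
  have a1 := abs_le.1 (hs x y y' g h1 hT)
  have a2 := abs_le.1 (hr x x' y g hT)
  linarith [a1.1, a1.2, a2.1, a2.2]

theorem isTest_post (P : Protocol X Y Z a b) (x : X) (z : Z) {K w : ℕ}
    (hw : (P.receiver x).WidthLE P.n w) (h : b ^ (w + 1) ≤ K) : P.IsTest K (post P x z) :=
  Or.inr ⟨x, z, w, hw, h, fun _ => rfl⟩

theorem isTest_ratio (P : Protocol X Y Z a b) (y y' : Y) {K w : ℕ}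
    (hw : (P.sender y).WidthLE P.n w) (hw' : (P.sender y').WidthLE P.n w)
    (h : a ^ (w + 1) ≤ K) : P.IsTest K (ratio P y y') :=
  Or.inl ⟨y, y', w, hw, hw', h, fun _ => rfl⟩

/-- the treewidth of the memory of both parties -/
theorem width {f : X → Y → Z} (P : Protocol X Y Z a b) {K : ℕ} {δ ε ε' : ℝ}
    (hf : ∃ x x' y y', f x y = f x y' ∧ f x' y ≠ f x' y') (hc : P.Correct f δ)
    (hr : P.ReceiverPrivate (P.IsTest K) ε) (hs : P.SenderPrivate f (P.IsTest K) ε')
    (hlt : 6 * δ + 2 * ε + 2 * ε' < 1) (w : ℕ) :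
    ((∀ y, (P.sender y).WidthLE P.n w) → K < a ^ (w + 1)) ∧
      ((∀ x, (P.receiver x).WidthLE P.n w) → K < b ^ (w + 1)) := by
  obtain ⟨x, x', y, y', h1, h2⟩ := hf
  constructor
  · intro hw
    by_contra hn
    have := sender_bound P (P.IsTest K) h1 h2
      (isTest_ratio P y y' (hw y) (hw y') (not_lt.1 hn)) hc hr hs
    linarith
  · intro hw
    by_contra hn
    have hT := isTest_post P x' (f x' y') (hw x') (not_lt.1 hn)
    have h3 := receiver_bound P (P.IsTest K) h1 h2 hT hc hr hs
    have h4 := (abs_nonneg _).trans (hr x x y _ hT)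
    have h5 := (abs_nonneg _).trans (hs x y y _ rfl hT)
    have h6 : 0 ≤ δ := by
      refine le_trans ?_ (hc x y)
      rw [error_eq]
      exact sum_nonneg fun τ _ => mul_nonneg (Party.tot_nonneg _ _ _)
        (sub_nonneg.2 (outWt_le P x _ _))
    linarith

/-- if every round reads at most one cell then the treewidth is at most one -/
theorem widthLE_one {turn : ℕ → Bool} {me : Bool} {d : ℕ} (A : Party turn me d) {n : ℕ}
    (h : A.OneRead n) : A.WidthLE n 1 := by
  intro τ
  -- a neighbour with a smaller number is the cell that is read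
  have key : ∀ (v u : Fin (n + 1)), (A.graph τ).Adj v u → u < v →
      ∃ j : Fin n, v = j.succ ∧ ∃ i ∈ A.reads j (fun l => τ (Fin.castLE j.2.le l)), (u : ℕ) = i := by
    rintro v u ⟨hne, j, hv, hu⟩ hlt
    refine ⟨j, ?_⟩
    rcases hv with hv | ⟨i, hi, hv⟩
    · rcases hu with hu | hu
      · exact absurd (hv.trans hu.symm) hne
      · exact ⟨hv, hu⟩
    · exfalso
      rcases hu with hu | ⟨i', hi', hu⟩
      · rw [hu, Fin.lt_def, Fin.val_succ, hv] at hlt
        have := i.2
        omega
      · have := h j j.2 _ hi hi'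
        exact hne (Fin.ext (by rw [hv, hu, this]))
  have hsub : ∀ v : Fin (n + 1), {u | (A.graph τ).Adj v u ∧ (fun v : Fin (n + 1) => n - (v : ℕ)) v <
      (fun v : Fin (n + 1) => n - (v : ℕ)) u}.Subsingleton := by
    intro v u hu u' hu'
    have hlt : ∀ x : Fin (n + 1), n - (v : ℕ) < n - (x : ℕ) → x < v := by
      intro x hx
      rw [Fin.lt_def]
      omega
    obtain ⟨j, hj, i, hi, e⟩ := key v u hu.1 (hlt u hu.2)
    obtain ⟨j', hj', i', hi', e'⟩ := key v u' hu'.1 (hlt u' hu'.2)
    have hjj : j = j' := Fin.succ_injective _ (hj.symm.trans hj')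
    subst hjj
    exact Fin.ext (by rw [e, e', h j j.2 _ hi hi'])
  refine ⟨A.graph τ, fun v => n - v, ?_, le_rfl, fun v => ⟨?_, ?_⟩⟩
  · intro u v huv
    have hu := u.2
    have hv := v.2
    simp only at huv
    exact Fin.ext (by omega)
  · intro u hu u' hu' hne
    exact absurd (hsub v hu hu') hne
  · exact_mod_cast Set.encard_le_one_iff_subsingleton.2 (hsub v)

end Pool.Agent.T9h85.OT
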